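import Pool.Agent.W5h57.Bur.Cover

/-!
# Nilpotency classes of `d`-generator subgroups and local finiteness

Let `u_0 = x_0` and `u_(j+1) = [[u_j, x_(j+1)], u_j]`.  The word `u_(d-1)` has `d` variables, its
weight is `2 ^ d - 1`, and it has weight `2 ^ (d - 1)` in the conjugates of `x_0`.  If `v ≠ 1` is a
value of `u_j` and `[[v, y], v] = 1` for all `y`, the conjugates of `v` commute and generate an
abelian normal subgroup.  So a group is hyperabelian (every nontrivial quotient has a nontrivial
abelian normal subgroup) if and only if for every sequence `x` some `u_j` is trivial, and this holds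
if `⟨x_0, …, x_(d-1)⟩` has class at most `2 ^ d - 2` for some `d` depending on the sequence, or if
the normal closure of `x_0` in this subgroup has class at most `2 ^ (d - 1) - 1`.  The nilpotency
class may grow exponentially with the number of generators here.

For a number `n` such that the finite `d`-generator groups of exponent dividing `n` satisfy this
bound for ONE `d`, it follows that `n ∈ 𝓛` if and only if `B_{d,n}` is finite, and `n ∈ 𝓛` if
`B_{r,mn}` is finite for some `r`, `m` with `B_{r,m}` finite and `d ≤ (r - 1) |B_{r,m}| + 1` (the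
`m`-th powers generate a free subgroup of this rank; the rank is computed by counting the
homomorphisms to a group of order two).

Example (not used in the proofs): the class of the finite `d`-generator groups of exponent `7` is at
most `51 d ^ 8` (Traustason, Vaughan-Lee), which is at most `2 ^ d - 2` for `d = 52`.  So `7 ∈ 𝓛` if
and only if `B_{52,7}` is finite, and `7 ∈ 𝓛` if `B_{2,28}` is finite, as `|B_{2,4}| = 4096`.
-/

set_option autoImplicit false

open scoped commutatorElement

namespace Pool.Agent.Results.MP_544bd1_al.ClassCriterion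

universe u

/-- `n ∈ 𝓛`: every group satisfying `x ^ n = 1` is locally finite. -/
def InL (n : ℕ) : Prop := ∀ (G : Type u) [Group G], (∀ x : G, x ^ n = 1) →
  ∀ S : Set G, S.Finite → Finite (Subgroup.closure S)

/-- The free Burnside group `B_{m,n}`: the free group of rank `m` modulo the normal closure of all
`n`-th powers. -/
abbrev B (m n : ℕ) : Type :=
  FreeGroup (Fin m) ⧸ Subgroup.normalClosure (Set.range fun w : FreeGroup (Fin m) => w ^ n)

/-- The words `u_0 = x_0`, `u_(j+1) = [[u_j, x_(j+1)], u_j]`. -/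
def word {G : Type u} [Group G] (x : ℕ → G) : ℕ → G
  | 0 => x 0
  | j + 1 => ⁅⁅word x j, x (j + 1)⁆, word x j⁆

/-- The generators of `B_{d,n}`, continued by `1`. -/
def gen (d n : ℕ) (i : ℕ) : B d n :=
  if h : i < d then QuotientGroup.mk (FreeGroup.of (⟨i, h⟩ : Fin d)) else 1

/-- `G` is hyperabelian: every nontrivial quotient of `G` has a nontrivial abelian normal
subgroup. -/
def Hyperabelian (G : Type u) [Group G] : Prop :=
  ∀ (N : Subgroup G) [N.Normal], N ≠ ⊤ →
    ∃ A : Subgroup (G ⧸ N), A.Normal ∧ A ≠ ⊥ ∧ ∀ a ∈ A, ∀ b ∈ A, a * b = b * a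

/-- The group `P` is nilpotent of class at most `2 ^ d - 2`, or the normal closure of `a` in `P` is
nilpotent of class at most `2 ^ (d - 1) - 1`.  (`lowerCentralSeries c = ⊥` means class at
most `c`.) -/
def SmallClass (d : ℕ) (P : Type u) [Group P] (a : P) : Prop :=
  (⊤ : Subgroup P).lowerCentralSeries (2 ^ d - 2) = ⊥ ∨
    (Subgroup.normalClosure {a}).lowerCentralSeries (2 ^ (d - 1) - 1) = ⊥

/-- All finite groups of exponent dividing `n` with at most `d` generators have small class. -/
def ClassBound (d n : ℕ) : Prop :=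
  ∀ (P : Type) [Group P] [Finite P], (∀ x : P, x ^ n = 1) → ∀ S : Finset P, S.card ≤ d →
    Subgroup.closure (S : Set P) = ⊤ → ∀ a ∈ S, SmallClass d P a

theorem word_eq {G : Type u} [Group G] (x : ℕ → G) (j : ℕ) :
    word x j = Pool.Agent.W5h57.Bur.uw x j := by
  induction j with
  | zero => rfl
  | succ j ih => simp only [word, Pool.Agent.W5h57.Bur.uw, ih]

/-- (1) A group `G` is hyperabelian if and only if for every sequence `x` some `u_j` is trivial.
(2) Suppose that for every sequence `x` in `G` there is `d ≥ 1` such that the subgroup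
`⟨x_0, …, x_(d-1)⟩` has class at most `2 ^ d - 2` or the normal closure of `x_0` in it has class at
most `2 ^ (d - 1) - 1`. Then `G` is hyperabelian; if `G` is periodic, it is locally finite.
(3) If `B_{d,n}` has class at most `2 ^ d - 2`, or the normal closure of its first generator has
class at most `2 ^ (d - 1) - 1`, then `n ∈ 𝓛`.
(4) Suppose that all finite `d`-generator groups of exponent dividing `n` have small class in this
sense. Then `n ∈ 𝓛` if and only if `B_{d,n}` is finite; every group of exponent dividing `n` with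
finite `d`-generator subgroups is locally finite; and if `B_{r,m}` and `B_{r,mn}` are finite and
`d ≤ (r - 1) |B_{r,m}| + 1`, then `n ∈ 𝓛`.
(5) All groups of exponent dividing `n` are hyperabelian if and only if the law `u_(d-1) = 1` holds
in `B_{d,n}`, for the generators, for some `d ≥ 1`; in this case `n ∈ 𝓛`. -/
theorem result :
    (∀ (G : Type u) [Group G], Hyperabelian G ↔ ∀ x : ℕ → G, ∃ j, word x j = 1) ∧
    (∀ (G : Type u) [Group G],
      (∀ x : ℕ → G, ∃ d, 1 ≤ d ∧ ∀ h0 : x 0 ∈ Subgroup.closure (x '' Set.Iio d),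
        SmallClass d (Subgroup.closure (x '' Set.Iio d)) ⟨x 0, h0⟩) →
      Hyperabelian G ∧ ((∀ g : G, IsOfFinOrder g) →
        ∀ S : Set G, S.Finite → Finite (Subgroup.closure S))) ∧
    (∀ d n : ℕ, 1 ≤ d → 1 ≤ n → SmallClass d (B d n) (gen d n 0) → InL.{u} n) ∧
    (∀ d n : ℕ, 1 ≤ d → 1 ≤ n → ClassBound d n →
      (InL.{u} n ↔ Finite (B d n)) ∧
      (∀ (G : Type u) [Group G], (∀ x : G, x ^ n = 1) →
        (∀ x : ℕ → G, Finite (Subgroup.closure (x '' Set.Iio d))) →
        ∀ S : Set G, S.Finite → Finite (Subgroup.closure S)) ∧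
      ∀ r m : ℕ, 1 ≤ r → Finite (B r m) → d ≤ (r - 1) * Nat.card (B r m) + 1 →
        Finite (B r (m * n)) → InL.{u} n) ∧
    ∀ n : ℕ, 1 ≤ n →
      ((∀ (G : Type u) [Group G], (∀ x : G, x ^ n = 1) → Hyperabelian G) ↔
        ∃ d, 1 ≤ d ∧ word (gen d n) (d - 1) = 1) ∧
      ((∃ d, 1 ≤ d ∧ word (gen d n) (d - 1) = 1) → InL.{u} n) := by
  refine ⟨fun G _ => ⟨fun h x => ?_, fun h => ?_⟩, fun G _ h => ?_, fun d n hd hn h => ?_,
    fun d n hd hn h => ⟨?_, fun G _ hG hf => ?_, fun r m hr hf1 hD hf2 => ?_⟩, fun n hn => ?_⟩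
  · obtain ⟨j, hj⟩ := Pool.Agent.W5h57.Bur.stops_of_hyperabelian h x
    exact ⟨j, (word_eq x j).trans hj⟩
  · exact Pool.Agent.W5h57.Bur.hyperabelian_of_stops fun x => by
      obtain ⟨j, hj⟩ := h x
      exact ⟨j, (word_eq x j).symm.trans hj⟩
  · have h1 : Hyperabelian G := Pool.Agent.W5h57.Bur.hyperabelian_of_stops fun x => by
      obtain ⟨d, hd, h2⟩ := h x
      exact ⟨d - 1, Pool.Agent.W5h57.Bur.stops_of_small hd h2⟩
    exact ⟨h1, fun ht => Pool.Agent.W5h57.Bur.lfin_of_hyperabelian h1 ht⟩
  · exact Pool.Agent.W5h57.Bur.inL_of_hyper hn fun G _ hG =>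
      Pool.Agent.W5h57.Bur.hyper_of_law hd (Pool.Agent.W5h57.Bur.uw_of_small hd _ h) hG
  · exact Pool.Agent.W5h57.Bur.inL_iff_of_bound hd hn h
  · refine Pool.Agent.W5h57.Bur.lfin_of_hyperabelian ?_
      (Pool.Agent.W5h57.Bur.periodic_of_exp hn hG)
    exact Pool.Agent.W5h57.Bur.hyperabelian_of_stops fun x =>
      ⟨d - 1, Pool.Agent.W5h57.Bur.stops_of_bound hd h hG x (hf x)⟩
  · have h2 : d + Nat.card (B r m) ≤ r * Nat.card (B r m) + 1 := by
      obtain ⟨s, rfl⟩ : ∃ s, r = s + 1 := ⟨r - 1, by omega⟩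
      rw [Nat.add_sub_cancel] at hD
      rw [add_mul, one_mul]
      omega
    exact (Pool.Agent.W5h57.Bur.inL_iff_of_bound hd hn h).2
      (Pool.Agent.W5h57.Bur.finite_of_comp hf2 h2)
  · have h1 : ∀ d, 1 ≤ d → word (gen d n) (d - 1) = 1 →
        ∀ (G : Type u) [Group G], (∀ x : G, x ^ n = 1) → Hyperabelian G := fun d hd hw G _ hG =>
      Pool.Agent.W5h57.Bur.hyper_of_law hd ((word_eq _ _).symm.trans hw) hG
    refine ⟨⟨fun h => ?_, fun ⟨d, hd, hw⟩ => h1 d hd hw⟩, fun ⟨d, hd, hw⟩ =>
      Pool.Agent.W5h57.Bur.inL_of_hyper hn (h1 d hd hw)⟩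
    obtain ⟨d, hd, hw⟩ := Pool.Agent.W5h57.Bur.law_of_hyper h
    exact ⟨d, hd, (word_eq _ _).trans hw⟩

end Pool.Agent.Results.MP_544bd1_al.ClassCriterion
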