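import Pool.Agent.W5h29.BN.Hyp

/-!
# Doubling words: one finite free Burnside group of small class decides whether `n ∈ 𝓛`

The words `w_0 = u(x_1, …, x_k)`, `w_{i+1} = [w_i, w_i ^ {y_i}]`.

* If the groups of exponent dividing `n` with the law `u = 1` are locally finite, so are those with
  the law `w_d = 1`, for every `d`; if `w_d` vanishes in the finite groups of exponent dividing `n`,
  then `n ∈ 𝓛` if and only if `B_{k+d,n}` is finite.
* In particular `n ∈ 𝓛` if and only if `B_{d,n}` is finite, if the finite `d`-generator groups of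
  exponent dividing `n` have derived length at most `d - 1`, or class at most `2 ^ d - 2`, or if in
  these groups the normal closures of the elements have class at most `2 ^ (d - 1) - 1`.
* If `p ^ k ∈ 𝓛` and the term of index `2 ^ (d - 1) (p ^ k + 1) - 1` of the series of Jennings, Lazard
  and Zassenhaus of the finite `d`-generator groups of exponent dividing `p ^ (k + 1)` is trivial, then
  `p ^ (k + 1) ∈ 𝓛` if and only if `B_{d,p^(k+1)}` is finite.
* For `u = x_1`: the word `w_d` vanishes in `B_{d+1,n}` for some `d` if and only if every nontrivial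
  group of exponent dividing `n` has a nontrivial abelian normal subgroup.

Proof. Let `G` be a group of exponent `n` without locally finite normal subgroups. If the word `u` does
not vanish in `G`, none of the words `w_i` does: if `z ≠ 1` commutes with all its conjugates, then
its normal closure is abelian and hence locally finite; so there is `y` with `[z, z ^ y] ≠ 1`. The
weight of the words in any central filtration doubles in each step (`[z, z ^ y]` is a conjugate of
`[z, [z⁻¹, y⁻¹]]`), while only one new variable is used.  For the last assertion, take in the free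
group of exponent `n` and countable rank a normal subgroup maximal among those that contain none of
the words `w_d`; a nontrivial abelian normal subgroup of the quotient would contain some `w_d`, and
then `w_{d+1} = 1`.
-/

set_option autoImplicit false

namespace Pool.Agent.Results.MP_544bd1_al.DoublingWords

open scoped commutatorElement

universe u

/-- locally finite groups -/
def LocallyFinite (G : Type u) [Group G] : Prop :=
  ∀ S : Set G, S.Finite → Finite (Subgroup.closure S)

/-- `n ∈ 𝓛`: every group satisfying `x ^ n = 1` is locally finite. -/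
def InL (n : ℕ) : Prop := ∀ (G : Type u) [Group G], (∀ x : G, x ^ n = 1) → LocallyFinite G

/-- The free Burnside group `B_{m,n}`: the free group of rank `m` modulo the normal closure of all
`n`-th powers. -/
abbrev B (m n : ℕ) : Type :=
  FreeGroup (Fin m) ⧸ Subgroup.normalClosure (Set.range fun w : FreeGroup (Fin m) => w ^ n)

/-- The values of the words `w_i` (`u` is a word in `k` variables): `w_0 = u(x)` and
`w_{i+1} = [w_i, y_i⁻¹ w_i y_i]`. -/
def w {k : ℕ} (u : FreeGroup (Fin k)) {G : Type u} [Group G] (x : Fin k → G) (y : ℕ → G) : ℕ → G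
  | 0 => FreeGroup.lift x u
  | i + 1 => ⁅w u x y i, (y i)⁻¹ * w u x y i * y i⁆

/-- The property `P` holds for all the finite groups of exponent dividing `n` generated by `d`
elements. -/
def AllFinite (d n : ℕ) (P : ∀ (F : Type) [Group F], Prop) : Prop :=
  ∀ (F : Type) [Group F] [Finite F], (∀ g : F, g ^ n = 1) →
    (∃ s : Fin d → F, Subgroup.closure (Set.range s) = ⊤) → P F

/-- Descending series `K 1 = G ≥ K 2 ≥ …` with `[K i, K j] ≤ K (i + j)` and `x ^ p ∈ K (p i)` for
`x ∈ K i`. -/
structure IsNp (p : ℕ) {G : Type u} [Group G] (K : ℕ → Subgroup G) : Prop where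
  one : K 1 = ⊤
  anti : ∀ i, K (i + 1) ≤ K i
  comm : ∀ i j, ⁅K i, K j⁆ ≤ K (i + j)
  pow : ∀ i, ∀ x ∈ K i, x ^ p ∈ K (p * i)

/-- The smallest of these series: the series of Jennings, Lazard and Zassenhaus. -/
def JLZ (p : ℕ) (G : Type u) [Group G] (i : ℕ) : Subgroup G :=
  ⨅ K ∈ {K : ℕ → Subgroup G | IsNp p K}, K i

/-- the word `x` -/
def var : FreeGroup (Fin 1) := FreeGroup.of 0

theorem w_eq {k : ℕ} (u : FreeGroup (Fin k)) {G : Type u} [Group G] (x : Fin k → G) (y : ℕ → G)
    (i : ℕ) : w u x y i = Pool.Agent.W5h29.BN.w u x y i := by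
  induction i with
  | zero => rfl
  | succ i ih =>
    simp only [w, Pool.Agent.W5h29.BN.w]
    rw [ih]

theorem isNp_iff (p : ℕ) {G : Type u} [Group G] (K : ℕ → Subgroup G) :
    IsNp p K ↔ Pool.Agent.W5h29.BN.IsNp p K :=
  ⟨fun h => ⟨h.1, h.2, h.3, h.4⟩, fun h => ⟨h.1, h.2, h.3, h.4⟩⟩

theorem jlz_eq (p : ℕ) (G : Type u) [Group G] (i : ℕ) :
    JLZ p G i = Pool.Agent.W5h29.BN.JLZ p G i := by
  unfold JLZ Pool.Agent.W5h29.BN.JLZ
  simp only [Set.mem_ofPred_eq, isNp_iff]

/-- **Main theorem.**
(1) Let `u` be a word in `k` variables such that the groups of exponent dividing `n` with the law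
`u = 1` are locally finite (for instance `u = x ^ m` with `m ∈ 𝓛`, or `u = x`). Then for every `d`
those with the law `w_d = 1` are locally finite; and if all finite groups of exponent dividing `n`
have this law, then `n ∈ 𝓛` if and only if `B_{k+d,n}` is finite.
(2) `n ∈ 𝓛` if and only if `B_{d+1,n}` is finite, if in all finite groups of exponent dividing `n`
with `d + 1` generators the derived length is at most `d`, or the nilpotency class is at most
`2 ^ (d + 1) - 2`, or the normal closures of the elements have class at most `2 ^ d - 1`.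
(3) Let `p ^ k ∈ 𝓛`. If the term of index `2 ^ d (p ^ k + 1) - 1` of the series of Jennings, Lazard
and Zassenhaus is trivial for all finite groups of exponent dividing `p ^ (k + 1)` with `d + 1`
generators, then `p ^ (k + 1) ∈ 𝓛` if and only if `B_{d+1,p^(k+1)}` is finite.
(4) Let `u = x`. The word `w_d` vanishes in `B_{d+1,n}` for some `d` if and only if every nontrivial
group of exponent dividing `n` has a nontrivial abelian normal subgroup (and then `n ∈ 𝓛`, if
`n ≥ 1`). -/
theorem result :
    (∀ (n k : ℕ) (u : FreeGroup (Fin k)), 1 ≤ n →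
      (∀ (G : Type u) [Group G], (∀ g : G, g ^ n = 1) →
        (∀ x : Fin k → G, FreeGroup.lift x u = 1) → LocallyFinite G) →
      ∀ d : ℕ,
        (∀ (G : Type u) [Group G], (∀ g : G, g ^ n = 1) →
          (∀ (x : Fin k → G) (y : ℕ → G), w u x y d = 1) → LocallyFinite G) ∧
        ((∀ (F : Type) [Group F] [Finite F], (∀ g : F, g ^ n = 1) →
          ∀ (x : Fin k → F) (y : ℕ → F), w u x y d = 1) →
          (InL.{u} n ↔ Finite (B (k + d) n)))) ∧
    (∀ n d : ℕ, 1 ≤ n →
      (AllFinite (d + 1) n (fun F _ => derivedSeries F d = ⊥) ∨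
        AllFinite (d + 1) n (fun F _ =>
          (⊤ : Subgroup F).lowerCentralSeries (2 ^ (d + 1) - 2) = ⊥) ∨
        AllFinite (d + 1) n (fun F _ => ∀ a : F,
          (Subgroup.normalClosure ({a} : Set F)).lowerCentralSeries (2 ^ d - 1) = ⊥)) →
      (InL.{u} n ↔ Finite (B (d + 1) n))) ∧
    (∀ p k d : ℕ, p.Prime → InL.{u} (p ^ k) →
      AllFinite (d + 1) (p ^ (k + 1)) (fun F _ => JLZ p F (2 ^ d * (p ^ k + 1) - 1) = ⊥) →
      (InL.{u} (p ^ (k + 1)) ↔ Finite (B (d + 1) (p ^ (k + 1))))) ∧
    ∀ n : ℕ,
      ((∃ d : ℕ, ∀ (x : Fin 1 → B (d + 1) n) (y : ℕ → B (d + 1) n), w var x y d = 1) ↔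
        ∀ (G : Type u) [Group G] [Nontrivial G], (∀ g : G, g ^ n = 1) →
          ∃ A : Subgroup G, A.Normal ∧ A ≠ ⊥ ∧ ∀ a ∈ A, ∀ b ∈ A, a * b = b * a) ∧
      (1 ≤ n → (∃ d : ℕ, ∀ (x : Fin 1 → B (d + 1) n) (y : ℕ → B (d + 1) n), w var x y d = 1) →
        InL.{u} n) := by
  have hpw : Pool.Agent.W5h29.BN.pw 1 = var := by
    unfold Pool.Agent.W5h29.BN.pw var
    rw [pow_one]
  refine ⟨fun n k u hn hu d => ⟨fun G _ hG hw => ?_, fun hF => ?_⟩, fun n d hn h => ?_,
    fun p k d hp hk h => ?_, fun n => ?_⟩
  · exact Pool.Agent.W5h29.BN.lf_of_law hn hu G hG fun x y => by rw [← w_eq]; exact hw x y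
  · exact Pool.Agent.W5h29.BN.inL_iff hn hu fun F _ _ hFe x y => by
      rw [← w_eq]; exact hF F hFe x y
  · rw [add_comm d 1] at h ⊢
    rcases h with h | h | h
    · exact Pool.Agent.W5h29.BN.crit_derived hn h
    · rw [add_comm 1 d] at h ⊢
      exact (add_comm 1 d) ▸ Pool.Agent.W5h29.BN.crit_class (d := d) hn ((add_comm d 1) ▸ h)
    · exact Pool.Agent.W5h29.BN.crit_closure hn h
  · rw [add_comm d 1] at h ⊢
    exact Pool.Agent.W5h29.BN.crit_JLZ hp.one_lt.le hk fun F _ _ h1 h2 => by
      have h3 := h F h1 h2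
      simp only [jlz_eq] at h3
      exact h3
  · have key : (∃ d : ℕ, ∀ (x : Fin 1 → B (d + 1) n) (y : ℕ → B (d + 1) n), w var x y d = 1) ↔
        ∃ d, Pool.Agent.W5h29.BN.w (Pool.Agent.W5h29.BN.pw 1)
          (Pool.Agent.W5h29.BN.gx 1 (1 + d) n) (Pool.Agent.W5h29.BN.gy 1 (1 + d) n) d = 1 := by
      refine exists_congr fun d => ?_
      rw [add_comm d 1]
      constructor
      · intro h
        rw [hpw, ← w_eq]
        exact h _ _
      · intro h x y
        rw [w_eq, ← hpw]
        exact Pool.Agent.W5h29.BN.w_of_gen h (Pool.Agent.W5h29.BN.B_pow (1 + d) n) x y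
    rw [key]
    refine ⟨Pool.Agent.W5h29.BN.hyper_iff, ?_⟩
    rintro hn ⟨d, hd⟩
    exact Pool.Agent.W5h29.BN.inL_of_gen hn
      (Pool.Agent.W5h29.BN.lawLF_pw n Pool.Agent.W5h29.BN.inL_one) hd

end Pool.Agent.Results.MP_544bd1_al.DoublingWords
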