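import Mathlib
import Pool.Agent.Results.MP_544bd1_al.TwoGenerators
import Pool.Agent.Results.MP_544bd1_al.MetanilpotentTwo
import Pool.Agent.W5h53.BC.Gen2

/-!
# Groups of finite exponent whose `r`-generator `p`-subgroups have small class or derived length

The exponents `2 ^ k` and `3 ^ k`: let `q = p ^ (k - 1)`.  The main point is that `a ^ q` and `b ^ q`
commute if `a` and `b` are elements of a group `K` of class at most five and exponent `p ^ k`, where
`p = 2` and `k ≥ 3` or `p = 3` and `k ≥ 2` (`Pool.Agent.W5h53.BC.comm_class_five`).  Here the third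
term `A` of the lower central series of `K` is abelian; for `u` in the second term, `(u g) ^ n` is
computed in terms of the action of `K` on `A`.  So `[a ^ q, b] ^ q` and `[a ^ q, b ^ q]` are computed
explicitly in the module `A`, and `(u g) ^ (p ^ k) = 1` shows that all factors vanish.

Hence in every group `H` of exponent `p ^ k` the element `w_1 = [x ^ q, y x ^ q y⁻¹]` lies in the
seventh term of the lower central series (the seventh term is best possible for `p = 3`, `k = 2`). Put
`w_(j+1) = [w_j, y_(j+1) w_j y_(j+1)⁻¹]`.  Then `w_(r-1)`, a word in `r` letters, is trivial in groups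
of class at most `2 ^ (r + 1) - 2`, and in groups for which the seventh term of the lower central
series has derived length at most `r - 2`.  If `w_(j+1)` is a law in a group of finite exponent, the
values of `w_j` commute with their conjugates, and they lie in the locally finite radical; so one can
pass from the law `w_(r-1) = 1` to the law `x ^ q = 1` modulo the radical, and the theorems of Burnside
and Sanov on the exponents `3` and `4` are reached by induction.

For the other exponents the earlier results `ThreeGenerators`, `TwoGenerators` and `MetanilpotentTwo`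
give nontrivial normal subgroups of prime power exponent in the quotient of `G` by its locally finite
radical, and the conditions on the `p`-subgroups generated by `r` elements pass to this quotient.
-/

set_option autoImplicit false

namespace Pool.Agent.Results.MP_544bd1_al.FewGeneratorsSmallClass

universe u

/-- `H` is nilpotent of class at most `c`. -/
def ClassAtMost (c : ℕ) (H : Type u) [Group H] : Prop :=
  Group.IsNilpotent H ∧ Group.nilpotencyClass H ≤ c

/-- `H` is soluble of derived length at most `d`. -/
def DerivedLengthAtMost (d : ℕ) (H : Type u) [Group H] : Prop := derivedSeries H d = ⊥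

/-- The condition on `G` for the prime `p` (only `p`-subgroups of `G` are restricted).  For `p ≤ 3`:
`x` and `y x y⁻¹` generate a subgroup of class at most five whenever `⟨x, y⟩` is a `p`-group; or each
`p`-subgroup `H` of `G` generated by `r` elements has class at most `2 ^ (r + 1) - 2` or its seventh
lower central term has derived length at most `r - 2`.  For all `p`: each `p`-subgroup of `G` generated
by `r` elements has class at most `2 ^ r - 2` or derived length at most `r - 1`. -/
def SmallAt (p r : ℕ) (G : Type u) [Group G] : Prop :=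
  (p ≤ 3 ∧ ((∀ x y : G, IsPGroup p (Subgroup.closure {x, y}) →
      ClassAtMost 5 (Subgroup.closure {x, y * x * y⁻¹})) ∨
    ∀ a : Fin r → G, IsPGroup p (Subgroup.closure (Set.range a)) →
      ClassAtMost (2 ^ (r + 1) - 2) (Subgroup.closure (Set.range a)) ∨
      DerivedLengthAtMost (r - 2)
        ((⊤ : Subgroup (Subgroup.closure (Set.range a))).lowerCentralSeries 6))) ∨
  ∀ a : Fin r → G, IsPGroup p (Subgroup.closure (Set.range a)) →
    ClassAtMost (2 ^ r - 2) (Subgroup.closure (Set.range a)) ∨
    DerivedLengthAtMost (r - 1) (Subgroup.closure (Set.range a))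

/-- `n` is not divisible by `2 ^ m * (2 ^ m - 1) ^ 2` for any `m ≥ 2`, and there are at most two odd
primes whose square divides `n`. -/
def Admissible (n : ℕ) : Prop :=
  (∀ m : ℕ, 2 ≤ m → ¬ 2 ^ m * (2 ^ m - 1) ^ 2 ∣ n) ∧
    ∃ p q : ℕ, ∀ r : ℕ, r.Prime → r ≠ 2 → r ^ 2 ∣ n → r = p ∨ r = q

/-- A metanilpotent group: it has a nilpotent normal subgroup with nilpotent quotient. -/
def IsMetanilpotent (K : Type u) [Group K] : Prop :=
  ∃ N : Subgroup K, ∃ _ : N.Normal, Group.IsNilpotent N ∧ Group.IsNilpotent (K ⧸ N)

/-- The remaining condition: `n` is a prime power; or `r ≥ 3` and the `r`-generator subgroups of `G`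
are soluble of bounded derived length; or the `r`-generator subgroups are finite, and `n` is admissible
and has at most two prime divisors, or `n` is admissible and the two-generator subgroups are soluble,
or the two-generator subgroups are metanilpotent. -/
def Condition (n r : ℕ) (G : Type u) [Group G] : Prop :=
  (∃ p k : ℕ, p.Prime ∧ n = p ^ k) ∨
    (3 ≤ r ∧ ∃ d : ℕ, ∀ a : Fin r → G, DerivedLengthAtMost d (Subgroup.closure (Set.range a))) ∨
    (∀ a : Fin r → G, Finite (Subgroup.closure (Set.range a))) ∧
      ((Admissible n ∧ (n.primeFactors.card ≤ 2 ∨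
        ∀ x y : G, Group.IsSolvable (Subgroup.closure {x, y}))) ∨
        ∀ x y : G, IsMetanilpotent (Subgroup.closure {x, y}))

open Pool.Agent.W5h53.BC

theorem lcs_of {c : ℕ} {G : Type u} [Group G] {H : Subgroup G} (h : ClassAtMost c H) :
    H.lowerCentralSeries c = ⊥ := by
  have := h.1
  exact Subgroup.lowerCentralSeries_eq_bot_of_nilpotencyClass_le h.2

theorem ds_of {d : ℕ} {G : Type u} [Group G] {H : Subgroup G} (h : DerivedLengthAtMost d H) :
    ds H d = ⊥ := by
  rw [← ds_eq, show derivedSeries H d = ⊥ from h, Subgroup.map_bot]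

theorem ds_of' {d j : ℕ} {G : Type u} [Group G] {H : Subgroup G}
    (h : DerivedLengthAtMost d ((⊤ : Subgroup H).lowerCentralSeries j)) :
    ds (H.lowerCentralSeries j) d = ⊥ := by
  rw [← Subgroup.top_subtype_lowerCentralSeries, ← ds_map, ds_of h, Subgroup.map_bot]

/-- the subgroup generated by a list of length `r` -/
theorem gn_range {G : Type u} [Group G] {r : ℕ} (L : List G) (hL : L.length = r) :
    ∃ a : Fin r → G, Subgroup.closure (Set.range a) = gn L := by
  subst hL
  refine ⟨L.get, ?_⟩
  unfold gn
  congr 1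
  ext z
  simp [List.mem_iff_get]

theorem pc_of {n r : ℕ} (hn : 1 ≤ n) {G : Type u} [Group G] (hG : ∀ x : G, x ^ n = 1)
    (h : ∀ p : ℕ, p.Prime → p ∣ n → SmallAt p r G) : PC r G := by
  intro p hp
  by_cases hpn : p ∣ n
  · rcases h p hp hpn with ⟨h3, h4 | h4⟩ | h4
    · exact Or.inl ⟨h3, Or.inl fun x y hxy => lcs_of (h4 x y hxy)⟩
    · refine Or.inl ⟨h3, Or.inr fun L hL hLp => ?_⟩
      obtain ⟨a, ha⟩ := gn_range L hL
      rw [← ha] at hLp ⊢
      exact (h4 a hLp).imp lcs_of ds_of'
    · refine Or.inr fun L hL hLp => ?_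
      obtain ⟨a, ha⟩ := gn_range L hL
      rw [← ha] at hLp ⊢
      exact (h4 a hLp).imp lcs_of ds_of
  · refine Or.inr fun L hL hLp => Or.inl ?_
    have h1 : gn L = ⊥ := by
      rw [eq_bot_iff]
      intro z hz
      obtain ⟨k, hk⟩ := hLp ⟨z, hz⟩
      have hk' : z ^ p ^ k = 1 := congrArg Subtype.val hk
      have h2 : Nat.Coprime (p ^ k) n := Nat.Coprime.pow_left k ((Nat.Prime.coprime_iff_not_dvd hp).2 hpn)
      have h3 : orderOf z ∣ 1 := by
        rw [← h2]
        exact Nat.dvd_gcd (orderOf_dvd_of_pow_eq_one hk') (orderOf_dvd_of_pow_eq_one (hG z))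
      rw [Subgroup.mem_bot, ← orderOf_eq_one_iff]
      exact Nat.dvd_one.1 h3
    rw [eq_bot_iff, ← h1]
    exact Subgroup.lowerCentralSeries_le_self _ _

theorem solvable_quot {G : Type u} [Group G] (N : Subgroup G) [N.Normal]
    (h : ∀ x y : G, Group.IsSolvable (Subgroup.closure {x, y})) (x y : G ⧸ N) :
    Group.IsSolvable (Subgroup.closure {x, y}) := by
  obtain ⟨x, rfl⟩ := QuotientGroup.mk'_surjective _ x
  obtain ⟨y, rfl⟩ := QuotientGroup.mk'_surjective _ y
  rw [← pair_map]
  have := h x y
  exact Group.isSolvable_of_surjective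
    ((QuotientGroup.mk' N).subgroupMap_surjective (Subgroup.closure {x, y}))

theorem finite_quot {G : Type u} [Group G] (N : Subgroup G) [N.Normal]
    (h : ∀ x y : G, Finite (Subgroup.closure {x, y})) (x y : G ⧸ N) :
    Finite (Subgroup.closure {x, y}) := by
  obtain ⟨x, rfl⟩ := QuotientGroup.mk'_surjective _ x
  obtain ⟨y, rfl⟩ := QuotientGroup.mk'_surjective _ y
  rw [← pair_map]
  have := h x y
  exact Finite.of_surjective _
    ((QuotientGroup.mk' N).subgroupMap_surjective (Subgroup.closure {x, y}))

/-- Let `n ≥ 1` and `r ≥ 2`, and let `G` be a group which satisfies `x ^ n = 1`. Suppose that the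
`p`-subgroups of `G` generated by `r` elements are small in the sense of `SmallAt`, for all primes `p`
which divide `n`; and that `n` is a prime power, or that the `r`-generator subgroups of `G` satisfy
one of the conditions in `Condition`. Then `G` is locally finite. -/
theorem result (n r : ℕ) (hn : 1 ≤ n) (hr : 2 ≤ r) (G : Type u) [Group G] (hG : ∀ x : G, x ^ n = 1)
    (hC : Condition n r G) (hS : ∀ p : ℕ, p.Prime → p ∣ n → SmallAt p r G) :
    ∀ S : Set G, S.Finite → Finite (Subgroup.closure S) := by
  have hL := pc_of hn hG hS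
  rcases hC with ⟨p, k, hp, rfl⟩ | ⟨hr3, d, hd⟩ | ⟨hfin, hC⟩
  · exact lf_prime_pow hr hp G hG hL
  · refine lf_three (by omega : n ≠ 0) hr3 d G hG (fun L hL => ?_) hL
    obtain ⟨a, ha⟩ := gn_range L hL
    rw [← ha]
    exact ds_of (hd a)
  · have hf : ∀ L : List G, L.length = r → Finite (gn L) := fun L hL => by
      obtain ⟨a, ha⟩ := gn_range L hL
      rw [← ha]
      exact hfin a
    have hf2 : ∀ x y : G, Finite (Subgroup.closure {x, y}) := by
      intro x y
      rw [← gn_pad x y (r - 2)]
      exact hf _ (by simp; omega)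
    rcases hC with ⟨hA, hs⟩ | hM
    · refine lf_gen2 hr (fun G _ => (∀ x : G, x ^ n = 1) ∧
        (∀ x y : G, Finite (Subgroup.closure {x, y})) ∧
        (n.primeFactors.card ≤ 2 ∨ ∀ x y : G, Group.IsSolvable (Subgroup.closure {x, y}))) ?_ ?_ G
        hf ⟨hG, hf2, hs⟩ hL
      · rintro G _ N _ ⟨h1, h2, h3⟩
        exact ⟨exp_quot N fun x => by rw [h1]; exact one_mem _, finite_quot N h2,
          h3.imp_right (solvable_quot N)⟩
      · rintro G _ ⟨h1, h2, h3⟩ hnt
        obtain ⟨p, k, hp, -, N, hN⟩ :=
          (((TwoGenerators.result.{u}.2 n hn hA).1 G h1 h2 h3).1 hnt)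
        exact ⟨p, k, hp, N, hN⟩
    · refine lf_gen2 hr (fun G _ => (∀ x : G, x ^ n = 1) ∧
        (∀ x y : G, Finite (Subgroup.closure {x, y})) ∧
        ∀ x y : G, IsMetanilpotent (Subgroup.closure {x, y})) ?_ ?_ G hf ⟨hG, hf2, hM⟩ hL
      · rintro G _ N _ ⟨h1, h2, h3⟩
        exact ⟨exp_quot N fun x => by rw [h1]; exact one_mem _, finite_quot N h2,
          Pool.Agent.TH69.Om.MN_quot G N h3⟩
      · rintro G _ ⟨h1, h2, h3⟩ hnt
        obtain ⟨p, k, hp, -, N, hN⟩ :=
          (((MetanilpotentTwo.result.{u} n hn).1 G h1 h2 (Or.inl h3)).1 hnt)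
        exact ⟨p, k, hp, N, hN⟩

end Pool.Agent.Results.MP_544bd1_al.FewGeneratorsSmallClass
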