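import Pool.Agent.W5h59.Bu.Main
import Pool.Agent.H15R2.Burn

/-!
# Exponents `2 m`, `m ∈ 𝓛`: groups in which `(x y z) ^ 4 = 1` for all involutions

Let `G` be a group in which `(x y z) ^ 4 = 1` whenever `x ^ 2 = y ^ 2 = z ^ 2 = 1`.  Then the
subgroup `T` generated by the involutions of `G` is a locally finite `2`-group.

It follows that a group `G` with `x ^ (2 m) = 1`, `m ∈ 𝓛`, is locally finite if `(x y z) ^ 4 = 1` for
all involutions `x`, `y`, `z` in the subgroup generated by the `m`-th powers.  For `m = 4` (groups of
exponent `8`) the hypothesis `m ∈ 𝓛` is Sanov's theorem, which is proved in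
`Pool/Agent/H15R2/Burn.lean`.

Idea of the proof.  For involutions `x`, `y` write `k x y = (x y) ^ 2 = [x, y]`; this is an
involution.  Call an involution `a` *strong* if `[[a, u], [a, v]] = 1` for all involutions `u`, `v`.
First, all commutators `[a, t]` of involutions are strong (files `Base`, `K`, `C`, `C5`, `A`).  For
strong involutions one has a theory similar to that of sandwiches in Lie algebras: the *thickness* of
`a` is at least `n` if `a` commutes with `a ^ g` for all products `g` of at most `n` strong
involutions.  If `a`, `b` are strong and `a` has thickness at least `n`, then `[a, b]` has thickness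
at least `n + 1` (file `Th`, theorem `thick`), and if the group is generated by `r` strong
involutions, then an element of thickness `r` commutes with all its conjugates (theorem `beta`).  So
groups generated by finitely many strong involutions are finite, by descending induction on the
thickness of the strong elements outside the locally finite radical (file `Main`).
-/

set_option autoImplicit false

namespace Pool.Agent.Results.MP_544bd1_al.TripleProductsOfInvolutions

universe u

/-- A group is locally finite: each of its finitely generated subgroups is finite. -/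
def LocallyFiniteGroup (G : Type u) [Group G] : Prop :=
  ∀ H : Subgroup G, H.FG → Finite H

/-- `n ∈ 𝓛`: every group satisfying `x ^ n = 1` is locally finite. -/
def InL (n : ℕ) : Prop :=
  ∀ (G : Type u) [Group G], (∀ x : G, x ^ n = 1) → LocallyFiniteGroup G

/-- `(x y z) ^ 4 = 1` for all elements `x`, `y`, `z` of the subgroup `A` whose square is `1`. -/
def TripleCondition {G : Type u} [Group G] (A : Subgroup G) : Prop :=
  ∀ x ∈ A, ∀ y ∈ A, ∀ z ∈ A, x ^ 2 = 1 → y ^ 2 = 1 → z ^ 2 = 1 → (x * y * z) ^ 4 = 1

theorem lf_of_LFn {G : Type u} [Group G] (h : Pool.Agent.W5h59.Bu.LFn G) :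
    LocallyFiniteGroup G := by
  intro H hH
  obtain ⟨S, hS⟩ := hH
  have := h (S : Set G) S.finite_toSet
  rwa [hS] at this

theorem LFn_of_lf {G : Type u} [Group G] (h : LocallyFiniteGroup G) :
    Pool.Agent.W5h59.Bu.LFn G := by
  intro S hS
  exact h _ ((Subgroup.fg_iff _).2 ⟨S, rfl, hS⟩)

theorem e3_of {G : Type u} [Group G] (A : Subgroup G) (h : TripleCondition A) :
    Pool.Agent.W5h59.Bu.E3 A := by
  intro x y z hx hy hz
  apply Subtype.ext
  have h1 : ∀ w : A, w * w = 1 → (w : G) ^ 2 = 1 := by
    intro w hw
    rw [sq]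
    exact congrArg Subtype.val hw
  have := h x x.2 y y.2 z z.2 (h1 x hx) (h1 y hy) (h1 z hz)
  rw [show (4 : ℕ) = 2 * 2 from rfl, pow_mul, sq, sq] at this
  exact this

/-- A subgroup `A` which is generated by elements of order two, such that `(x y z) ^ 4 = 1` for all
elements `x`, `y`, `z` of order at most two of `A`, is a locally finite `2`-group. -/
theorem generated {G : Type u} [Group G] (A : Subgroup G) (h : TripleCondition A)
    (S : Set G) (hS : ∀ x ∈ S, x ^ 2 = 1) (hA : A = Subgroup.closure S) :
    Pool.Agent.W5h59.Bu.LF2 A := by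
  have h1 := Pool.Agent.W5h59.Bu.TT_lf (e3_of A h)
  have h2 : Pool.Agent.W5h59.Bu.TT A = ⊤ := by
    rw [eq_top_iff]
    have hle : A ≤ (Pool.Agent.W5h59.Bu.TT A).map A.subtype := by
      conv_lhs => rw [hA]
      rw [Subgroup.closure_le]
      intro x hx
      have hxA : x ∈ A := hA ▸ Subgroup.subset_closure hx
      refine ⟨⟨x, hxA⟩, Subgroup.subset_closure ?_, rfl⟩
      show (⟨x, hxA⟩ : A) * ⟨x, hxA⟩ = 1
      apply Subtype.ext
      have := hS x hx
      rw [sq] at this
      exact this
    rintro ⟨x, hx⟩ -
    obtain ⟨y, hy, hyx⟩ := hle hx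
    have : y = ⟨x, hx⟩ := Subtype.ext hyx
    rw [← this]
    exact hy
  rw [h2] at h1
  exact h1.sub (Subgroup.topEquiv (G := A)).symm.toMonoidHom
    (Subgroup.topEquiv (G := A)).symm.injective

theorem pow_normal {G : Type u} [Group G] (m : ℕ) :
    (Subgroup.closure {y : G | ∃ x : G, y = x ^ m}).Normal := by
  constructor
  intro n hn g
  induction hn using Subgroup.closure_induction with
  | mem x hx =>
    obtain ⟨y, rfl⟩ := hx
    refine Subgroup.subset_closure ⟨g * y * g⁻¹, ?_⟩
    rw [conj_pow]
  | one => rw [mul_one, mul_inv_cancel]; exact one_mem _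
  | mul x y _ _ h1 h2 =>
    rw [show g * (x * y) * g⁻¹ = (g * x * g⁻¹) * (g * y * g⁻¹) by group]
    exact mul_mem h1 h2
  | inv x _ h1 =>
    rw [show g * x⁻¹ * g⁻¹ = (g * x * g⁻¹)⁻¹ by group]
    exact inv_mem h1

theorem main {m : ℕ} (hm : InL.{u} m) (G : Type u) [Group G] (hG : ∀ x : G, x ^ (2 * m) = 1)
    (h : TripleCondition (Subgroup.closure {y : G | ∃ x : G, y = x ^ m})) :
    LocallyFiniteGroup G := by
  apply lf_of_LFn
  have := pow_normal (G := G) m
  refine Pool.Agent.W5h59.Bu.LFn.ext (Subgroup.closure {y : G | ∃ x : G, y = x ^ m}) ?_ ?_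
  · refine (generated _ h {y : G | ∃ x : G, y = x ^ m} ?_ rfl).1
    rintro _ ⟨x, rfl⟩
    rw [← pow_mul, mul_comm]
    exact hG x
  · apply LFn_of_lf
    apply hm
    intro x
    obtain ⟨x, rfl⟩ := QuotientGroup.mk'_surjective _ x
    rw [← map_pow, QuotientGroup.mk'_apply, QuotientGroup.eq_one_iff]
    exact Subgroup.subset_closure ⟨x, rfl⟩

theorem four : InL.{u} 4 := by
  intro G _ hG
  apply lf_of_LFn
  intro S hS
  have := H15.Burn.fin4 hG hS.toFinset
  rw [hS.coe_toFinset] at this
  exact this.to_subtype

/-- (1) Let `G` be a group in which `(x y z) ^ 4 = 1` whenever `x ^ 2 = y ^ 2 = z ^ 2 = 1`.  The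
subgroup generated by the elements `x` with `x ^ 2 = 1` is a locally finite `2`-group.
(2) Let `m ∈ 𝓛` and let `G` be a group with `x ^ (2 m) = 1` for all `x`, such that `(x y z) ^ 4 = 1`
for all elements `x`, `y`, `z` with square `1` of the subgroup generated by the `m`-th powers.  Then
`G` is locally finite.
(3) Let `G` be a group with `x ^ 8 = 1` for all `x`, such that `(x y z) ^ 4 = 1` for all elements
`x`, `y`, `z` with square `1` of the subgroup generated by the fourth powers.  Then `G` is locally
finite. -/
theorem result :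
    (∀ (G : Type u) [Group G], TripleCondition (⊤ : Subgroup G) →
      LocallyFiniteGroup (Subgroup.closure {x : G | x ^ 2 = 1}) ∧
        IsPGroup 2 (Subgroup.closure {x : G | x ^ 2 = 1})) ∧
    (∀ m : ℕ, InL.{u} m → ∀ (G : Type u) [Group G], (∀ x : G, x ^ (2 * m) = 1) →
      TripleCondition (Subgroup.closure {y : G | ∃ x : G, y = x ^ m}) → LocallyFiniteGroup G) ∧
    (∀ (G : Type u) [Group G], (∀ x : G, x ^ 8 = 1) →
      TripleCondition (Subgroup.closure {y : G | ∃ x : G, y = x ^ 4}) → LocallyFiniteGroup G) := by
  refine ⟨?_, fun m hm G _ hG h => main hm G hG h, fun G _ hG h => main four G hG h⟩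
  intro G _ h
  have := generated (Subgroup.closure {x : G | x ^ 2 = 1})
    (fun x _ y _ z _ => h x trivial y trivial z trivial) {x : G | x ^ 2 = 1} (fun x hx => hx) rfl
  exact ⟨lf_of_LFn this.1, this.2⟩

end Pool.Agent.Results.MP_544bd1_al.TripleProductsOfInvolutions
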